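import Mathlib

/-!
# MP_31e124_gt, package NA: negative amphichiral knots, the torsion polynomial by Fox calculus
-/

set_option autoImplicit false

namespace Pool.Agent.Lib.MP_31e124_gt.NA

open LaurentPolynomial
open scoped MatrixGroups

/-- The words in the free generators `c_i`, `i < 2 g`. -/
abbrev Word (g : ℕ) : Type := FreeGroup (Fin (2 * g))

/-- The free group with the generators `m` (`none`), `c_i` (`some (false, i)`) and `c'_i`
(`some (true, i)`). -/
abbrev Fr (g : ℕ) : Type := FreeGroup (Option (Bool × Fin (2 * g)))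

/-- The meridian `m`. -/
def mer {g : ℕ} : Fr g := FreeGroup.of none

/-- The word `w (c)` (`b = false`) or `w (c')` (`b = true`). -/
def cp {g : ℕ} (b : Bool) : Word g →* Fr g := FreeGroup.map fun i => some (b, i)

/-- The relator of `u_j (c') = v_j (c)` (index `(false, j)`) and the relator of
`m u_j (c) m⁻¹ = v_j (c')` (index `(true, j)`). -/
def rel {g : ℕ} (u v : Fin (2 * g) → Word g) : Bool × Fin (2 * g) → Fr g
  | (false, j) => cp true (u j) * (cp false (v j))⁻¹
  | (true, j) => mer * cp false (u j) * mer⁻¹ * (cp true (v j))⁻¹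

/-- The group of the knot. -/
abbrev KG {g : ℕ} (u v : Fin (2 * g) → Word g) : Type := PresentedGroup (Set.range (rel u v))

/-- The class of a word. -/
abbrev cl {g : ℕ} (u v : Fin (2 * g) → Word g) (w : Fr g) : KG u v :=
  PresentedGroup.mk (Set.range (rel u v)) w

/-- The images of the generators under the mirror symmetry: `c_i ↦ c'_i`, `c'_i ↦ m c_i m⁻¹`, `m ↦ m`. -/
def mirGen {g : ℕ} : Option (Bool × Fin (2 * g)) → Fr g
  | none => mer
  | some (false, i) => cp true (FreeGroup.of i)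
  | some (true, i) => mer * cp false (FreeGroup.of i) * mer⁻¹

theorem lift_false {g : ℕ} (u v : Fin (2 * g) → Word g) (w : Word g) :
    FreeGroup.lift (fun x => cl u v (mirGen x)) (cp false w) = cl u v (cp true w) := by
  induction w using FreeGroup.induction_on with
  | C1 => simp
  | of i => simp [cp, mirGen]
  | inv_of i h => simp only [map_inv, h]
  | mul x y hx hy => simp only [map_mul, hx, hy]

theorem lift_true {g : ℕ} (u v : Fin (2 * g) → Word g) (w : Word g) :
    FreeGroup.lift (fun x => cl u v (mirGen x)) (cp true w) =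
      cl u v mer * cl u v (cp false w) * (cl u v mer)⁻¹ := by
  induction w using FreeGroup.induction_on with
  | C1 => simp
  | of i => simp [cp, mirGen]
  | inv_of i h => simp only [map_inv, h, mul_inv_rev, inv_inv, mul_assoc]
  | mul x y hx hy =>
    simp only [map_mul, hx, hy]
    group

theorem cl_rel {g : ℕ} (u v : Fin (2 * g) → Word g) (i : Bool × Fin (2 * g)) :
    cl u v (rel u v i) = 1 :=
  PresentedGroup.one_of_mem (Set.mem_range_self i)

theorem mir_rel {g : ℕ} (u v : Fin (2 * g) → Word g) :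
    ∀ r ∈ Set.range (rel u v), FreeGroup.lift (fun x => cl u v (mirGen x)) r = 1 := by
  rintro _ ⟨⟨b, j⟩, rfl⟩
  have h1 := cl_rel u v (false, j)
  have h2 := cl_rel u v (true, j)
  have h3 : FreeGroup.lift (fun x => cl u v (mirGen x)) (mer : Fr g) = cl u v mer := by
    simp [mer, mirGen]
  simp only [rel, map_mul, map_inv] at h1 h2
  cases b
  · simp only [rel, map_mul, map_inv, lift_false, lift_true]
    exact h2
  · simp only [rel, map_mul, map_inv, lift_false, lift_true, h3]
    have h4 : cl u v (cp true (u j)) = cl u v (cp false (v j)) := mul_inv_eq_one.1 h1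
    rw [h4]
    group

/-- The mirror symmetry `c_i ↦ c'_i`, `c'_i ↦ m c_i m⁻¹`, `m ↦ m` of the group of the knot. -/
def mirror {g : ℕ} (u v : Fin (2 * g) → Word g) : KG u v →* KG u v :=
  PresentedGroup.toGroup (f := fun x => cl u v (mirGen x)) (mir_rel u v)

/-- The exponent sum of `m`. -/
def deg {g : ℕ} : Fr g →* Multiplicative ℤ :=
  FreeGroup.lift fun x => x.elim (Multiplicative.ofAdd 1) fun _ => 1

/-- The representation `w ↦ T ^ deg w • α w` over the Laurent polynomials. -/
noncomputable def Phi {g : ℕ} {u v : Fin (2 * g) → Word g} (α : KG u v →* SL(2, ℂ)) (w : Fr g) :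
    Matrix (Fin 2) (Fin 2) ℂ[T;T⁻¹] :=
  (T (Multiplicative.toAdd (deg w)) : ℂ[T;T⁻¹]) •
    ((α (cl u v w) : SL(2, ℂ)) : Matrix (Fin 2) (Fin 2) ℂ).map C

/-- `D x w` is the image under `Phi` of the Fox derivative of `w` with respect to the generator `x`. -/
structure IsFox {g : ℕ} {u v : Fin (2 * g) → Word g} (α : KG u v →* SL(2, ℂ))
    (D : Option (Bool × Fin (2 * g)) → Fr g → Matrix (Fin 2) (Fin 2) ℂ[T;T⁻¹]) : Prop where
  mul : ∀ x w z, D x (w * z) = D x w + Phi α w * D x z
  same : ∀ x, D x (FreeGroup.of x) = 1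
  ne : ∀ x y, x ≠ y → D x (FreeGroup.of y) = 0

/-- `τ` is the torsion polynomial, normalised by an odd power of `T`:
`τ · det (Phi m - 1) = T ^ s · det (Phi (∂ rel_i / ∂ c_j, ∂ rel_i / ∂ c'_j))`. -/
def IsTorsion {g : ℕ} {u v : Fin (2 * g) → Word g} (α : KG u v →* SL(2, ℂ)) (τ : ℂ[T;T⁻¹]) : Prop :=
  ∃ D, IsFox α D ∧ ∃ s : ℤ, Odd s ∧ τ * (Phi α mer - 1).det = T s *
    (Matrix.of fun i j : (Bool × Fin (2 * g)) × Fin 2 => D (some j.1) (rel u v i.1) i.2 j.2).det

/-- The matrix of `α x`. -/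
noncomputable def mat {g : ℕ} {u v : Fin (2 * g) → Word g} (α : KG u v →* SL(2, ℂ)) (x : KG u v) :
    Matrix (Fin 2) (Fin 2) ℂ :=
  ((α x : SL(2, ℂ)) : Matrix (Fin 2) (Fin 2) ℂ)

/-- The properties of the holonomy representation of a negative amphichiral knot which are used. -/
structure Holonomy {g : ℕ} {u v : Fin (2 * g) → Word g} (α : KG u v →* SL(2, ℂ)) : Prop where
  irr : ∀ w : Fin 2 → ℂ, w ≠ 0 → ∃ x, ∀ c : ℂ, (mat α x).mulVec w ≠ c • w
  tr : (mat α (cl u v mer)).trace = 2
  ne : mat α (cl u v mer) ≠ 1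
  sym : ∃ Y : Matrix (Fin 2) (Fin 2) ℂ, Y.det ≠ 0 ∧
    ∀ x, mat α (mirror u v x) * Y = Y * (mat α x).map (starRingEnd ℂ)

/-- The top coefficient of `τ`, at `T ^ d`, is real and not zero, and it is positive if and only if `d`
is odd. -/
def TopSign (τ : ℂ[T;T⁻¹]) : Prop :=
  ∃ (d : ℤ) (r : ℝ), r ≠ 0 ∧ τ.coeff d = (r : ℂ) ∧ (∀ e, d < e → τ.coeff e = 0) ∧ (0 < r ↔ Odd d)

end Pool.Agent.Lib.MP_31e124_gt.NA
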