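import Pool.Agent.Lib.MP_31e124_gt.NA.Sgn

/-!
# MP_31e124_gt, package NA: the Fox matrix
-/

set_option autoImplicit false

namespace Pool.Agent.Lib.MP_31e124_gt.NA

open LaurentPolynomial Matrix
open scoped MatrixGroups Kronecker

variable {g : ℕ} {u v : Fin (2 * g) → Word g} {α : KG u v →* SL(2, ℂ)}

theorem nmap {R S : Type} [Ring R] [Ring S] (f : R →+* S) (M : Matrix (Fin 2) (Fin 2) R) :
    (-M).map f = -(M.map f) := by
  ext
  simp

theorem mat_mul (x y : KG u v) : mat α (x * y) = mat α x * mat α y := by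
  unfold mat
  rw [map_mul, Matrix.SpecialLinearGroup.coe_mul]

theorem mat_one : mat α (1 : KG u v) = 1 := by
  unfold mat
  rw [map_one, Matrix.SpecialLinearGroup.coe_one]

theorem mat_det (x : KG u v) : (mat α x).det = 1 :=
  Matrix.SpecialLinearGroup.det_coe _

theorem cl_mul (w z : Fr g) : cl u v (w * z) = cl u v w * cl u v z := map_mul _ w z

theorem Phi_eq (w : Fr g) : Phi α w =
    (T (Multiplicative.toAdd (deg w)) : ℂ[T;T⁻¹]) • (mat α (cl u v w)).map C := rfl

theorem Phi_mul (w z : Fr g) : Phi α (w * z) = Phi α w * Phi α z := by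
  rw [Phi_eq, Phi_eq, Phi_eq, cl_mul, mat_mul, map_mul, toAdd_mul, T_add, Matrix.map_mul,
    Matrix.smul_mul, Matrix.mul_smul, smul_smul]

theorem Phi_one : Phi α (1 : Fr g) = 1 := by
  have h : cl u v (1 : Fr g) = 1 := map_one _
  rw [Phi_eq, h, mat_one, map_one, toAdd_one, T_zero, one_smul, Matrix.map_one]
  · exact map_zero C
  · exact map_one C

theorem deg_cp (b : Bool) (w : Word g) : deg (cp b w) = 1 := by
  induction w using FreeGroup.induction_on with
  | C1 => rw [map_one, map_one]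
  | of i => simp [cp, deg]
  | inv_of i h => rw [map_inv, map_inv, h, inv_one]
  | mul x y hx hy => rw [map_mul, map_mul, hx, hy, one_mul]

theorem Phi_cp (b : Bool) (w : Word g) :
    Phi α (cp b w) = (mat α (cl u v (cp b w))).map C := by
  rw [Phi_eq, deg_cp, toAdd_one, T_zero, one_smul]

theorem deg_mer : deg (mer : Fr g) = Multiplicative.ofAdd 1 := by
  simp [deg, mer]

theorem Phi_mer : Phi α (mer : Fr g) = (T 1 : ℂ[T;T⁻¹]) • (mat α (cl u v mer)).map C := by
  rw [Phi_eq, deg_mer]
  rfl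

theorem Phi_rel (i : Bool × Fin (2 * g)) : Phi α (rel u v i) = 1 := by
  have h : deg (rel u v i) = 1 := by
    rcases i with ⟨b, j⟩
    cases b
    · rw [rel, map_mul, map_inv, deg_cp, deg_cp, inv_one, one_mul]
    · rw [rel, map_mul, map_mul, map_mul, map_inv, map_inv, deg_cp, deg_cp, inv_one, mul_one,
        mul_one, mul_inv_cancel]
  rw [Phi_eq, h, cl_rel, mat_one, toAdd_one, T_zero, one_smul, Matrix.map_one]
  · exact map_zero C
  · exact map_one C

variable {D : Option (Bool × Fin (2 * g)) → Fr g → Matrix (Fin 2) (Fin 2) ℂ[T;T⁻¹]}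

theorem fox_one (h : IsFox α D) (x : Option (Bool × Fin (2 * g))) : D x 1 = 0 := by
  have h1 := h.mul x 1 1
  rw [mul_one, Phi_one, one_mul] at h1
  exact (left_eq_add.1 h1)

theorem fox_inv (h : IsFox α D) (x : Option (Bool × Fin (2 * g))) (w : Fr g) :
    D x w⁻¹ = -(Phi α w⁻¹ * D x w) := by
  have h1 := h.mul x w⁻¹ w
  rw [inv_mul_cancel, fox_one h] at h1
  exact eq_neg_of_add_eq_zero_left h1.symm

theorem fox_other (h : IsFox α D) (b b' : Bool) (hb : b' ≠ b) (i : Fin (2 * g)) (w : Word g) :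
    D (some (b', i)) (cp b w) = 0 := by
  induction w using FreeGroup.induction_on with
  | C1 => rw [map_one, fox_one h]
  | of j =>
    have h1 : cp b (FreeGroup.of j) = FreeGroup.of (some (b, j)) := by simp [cp]
    have h2 : some (b', i) ≠ some (b, j) := by
      intro h3
      exact hb (congrArg Prod.fst (Option.some.inj h3))
    exact (congrArg (D (some (b', i))) h1).trans (h.ne _ _ h2)
  | inv_of j hj => rw [map_inv, fox_inv h, hj, mul_zero, neg_zero]
  | mul x y hx hy => rw [map_mul, h.mul, hx, hy, mul_zero, add_zero]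

/-- Evaluation at `T = 1`. -/
noncomputable def ev1 : ℂ[T;T⁻¹] →+* ℂ := LaurentPolynomial.eval₂ (RingHom.id ℂ) 1

theorem ev1_C (z : ℂ) : ev1 (C z) = z := by
  unfold ev1
  rw [LaurentPolynomial.eval₂_C]
  rfl

theorem ev1_map (M : Matrix (Fin 2) (Fin 2) ℂ) : (M.map C).map ev1 = M := by
  ext i j
  exact ev1_C _

/-- The Fox derivative over `ℂ`. -/
noncomputable def dl (D : Option (Bool × Fin (2 * g)) → Fr g → Matrix (Fin 2) (Fin 2) ℂ[T;T⁻¹])
    (b : Bool) (i : Fin (2 * g)) (w : Word g) : Matrix (Fin 2) (Fin 2) ℂ :=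
  (D (some (b, i)) (cp b w)).map ev1

theorem dl_one (h : IsFox α D) (b : Bool) (i : Fin (2 * g)) : dl D b i 1 = 0 := by
  unfold dl
  rw [map_one, fox_one h]
  ext
  simp

theorem dl_of (h : IsFox α D) (b : Bool) (i j : Fin (2 * g)) :
    dl D b i (FreeGroup.of j) = if i = j then 1 else 0 := by
  have h1 : cp b (FreeGroup.of j) = FreeGroup.of (some (b, j)) := by simp [cp]
  unfold dl
  rw [h1]
  by_cases hij : i = j
  · subst hij
    rw [if_pos rfl, h.same]
    exact Matrix.map_one _ (map_zero _) (map_one _)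
  · rw [if_neg hij, h.ne _ _ (by
      intro h3
      exact hij (congrArg Prod.snd (Option.some.inj h3)))]
    ext
    simp

theorem dl_mul (h : IsFox α D) (b : Bool) (i : Fin (2 * g)) (w z : Word g) :
    dl D b i (w * z) = dl D b i w + mat α (cl u v (cp b w)) * dl D b i z := by
  unfold dl
  rw [map_mul, h.mul, Phi_cp, Matrix.map_add _ (map_add ev1), Matrix.map_mul, ev1_map]

theorem dl_inv (h : IsFox α D) (b : Bool) (i : Fin (2 * g)) (w : Word g) :
    dl D b i w⁻¹ = -(mat α (cl u v (cp b w⁻¹)) * dl D b i w) := by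
  have h1 := dl_mul h b i w⁻¹ w
  rw [inv_mul_cancel, dl_one h] at h1
  exact eq_neg_of_add_eq_zero_left h1.symm

theorem fox_same (h : IsFox α D) (b : Bool) (i : Fin (2 * g)) (w : Word g) :
    D (some (b, i)) (cp b w) = (dl D b i w).map C := by
  induction w using FreeGroup.induction_on with
  | C1 =>
    rw [map_one, fox_one h, dl_one h]
    ext
    simp
  | of j =>
    have h1 : cp b (FreeGroup.of j) = FreeGroup.of (some (b, j)) := by simp [cp]
    rw [dl_of h, h1]
    by_cases hij : i = j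
    · subst hij
      rw [if_pos rfl, h.same]
      exact (Matrix.map_one _ (map_zero _) (map_one _)).symm
    · rw [if_neg hij, h.ne _ _ (by
        intro h3
        exact hij (congrArg Prod.snd (Option.some.inj h3)))]
      ext
      simp
  | inv_of j hj =>
    rw [map_inv, fox_inv h, hj, dl_inv h, ← map_inv, Phi_cp, ← Matrix.map_mul, nmap]
  | mul x y hx hy =>
    rw [map_mul, h.mul, hx, hy, dl_mul h, Phi_cp, ← Matrix.map_mul,
      Matrix.map_add _ (map_add C)]

theorem mirror_cp (w : Word g) : mirror u v (cl u v (cp false w)) = cl u v (cp true w) := by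
  have h : mirror u v (cl u v (cp false w)) =
      FreeGroup.lift (fun x => cl u v (mirGen x)) (cp false w) := rfl
  rw [h, lift_false]

theorem dl_conj (h : IsFox α D) (Y : Matrix (Fin 2) (Fin 2) ℂ)
    (hs : ∀ x, mat α (mirror u v x) * Y = Y * (mat α x).map (starRingEnd ℂ))
    (i : Fin (2 * g)) (w : Word g) :
    dl D true i w * Y = Y * (dl D false i w).map (starRingEnd ℂ) := by
  have hz : ((0 : Matrix (Fin 2) (Fin 2) ℂ)).map (starRingEnd ℂ) = 0 := by
    ext
    simp
  have ho : ((1 : Matrix (Fin 2) (Fin 2) ℂ)).map (starRingEnd ℂ) = 1 :=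
    Matrix.map_one _ (map_zero _) (map_one _)
  induction w using FreeGroup.induction_on with
  | C1 => rw [dl_one h, dl_one h, hz, zero_mul, mul_zero]
  | of j =>
    rw [dl_of h, dl_of h]
    by_cases hij : i = j
    · rw [if_pos hij, ho, one_mul, mul_one]
    · rw [if_neg hij, hz, zero_mul, mul_zero]
  | inv_of j hj =>
    rw [dl_inv h, dl_inv h, neg_mul, mul_assoc, hj, ← mul_assoc, ← mirror_cp, hs]
    rw [nmap, Matrix.map_mul, mul_neg, mul_assoc]
  | mul x y hx hy =>
    rw [dl_mul h, dl_mul h, add_mul, hx, mul_assoc, hy, ← mul_assoc, ← mirror_cp, hs,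
      Matrix.map_add _ (map_add _), Matrix.map_mul, mul_add, mul_assoc]

/-- The block matrix of the words `w j`. -/
noncomputable def bm (D : Option (Bool × Fin (2 * g)) → Fr g → Matrix (Fin 2) (Fin 2) ℂ[T;T⁻¹])
    (b : Bool) (w : Fin (2 * g) → Word g) :
    Matrix (Fin (2 * g) × Fin 2) (Fin (2 * g) × Fin 2) ℂ :=
  Matrix.of fun i j => dl D b j.1 (w i.1) i.2 j.2

/-- `A` in all diagonal blocks. -/
noncomputable def dg (g : ℕ) (A : Matrix (Fin 2) (Fin 2) ℂ) :
    Matrix (Fin (2 * g) × Fin 2) (Fin (2 * g) × Fin 2) ℂ :=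
  (1 : Matrix (Fin (2 * g)) (Fin (2 * g)) ℂ) ⊗ₖ A

theorem dg_mul_apply (A : Matrix (Fin 2) (Fin 2) ℂ)
    (M : Matrix (Fin (2 * g) × Fin 2) (Fin (2 * g) × Fin 2) ℂ) (i j : Fin (2 * g) × Fin 2) :
    (dg g A * M) i j = ∑ a, A i.2 a * M (i.1, a) j := by
  rw [Matrix.mul_apply, Fintype.sum_prod_type, Finset.sum_eq_single i.1]
  · refine Finset.sum_congr rfl fun a _ => ?_
    simp [dg, Matrix.kroneckerMap_apply]
  · intro b _ hb
    refine Finset.sum_eq_zero fun a _ => ?_
    simp [dg, Matrix.kroneckerMap_apply, Matrix.one_apply_ne (Ne.symm hb)]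
  · intro h
    exact absurd (Finset.mem_univ _) h

theorem mul_dg_apply (A : Matrix (Fin 2) (Fin 2) ℂ)
    (M : Matrix (Fin (2 * g) × Fin 2) (Fin (2 * g) × Fin 2) ℂ) (i j : Fin (2 * g) × Fin 2) :
    (M * dg g A) i j = ∑ a, M i (j.1, a) * A a j.2 := by
  rw [Matrix.mul_apply, Fintype.sum_prod_type, Finset.sum_eq_single j.1]
  · refine Finset.sum_congr rfl fun a _ => ?_
    simp [dg, Matrix.kroneckerMap_apply]
  · intro b _ hb
    refine Finset.sum_eq_zero fun a _ => ?_
    simp [dg, Matrix.kroneckerMap_apply, Matrix.one_apply_ne hb]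
  · intro h
    exact absurd (Finset.mem_univ _) h

theorem bm_conj (h : IsFox α D) (Y : Matrix (Fin 2) (Fin 2) ℂ)
    (hs : ∀ x, mat α (mirror u v x) * Y = Y * (mat α x).map (starRingEnd ℂ))
    (w : Fin (2 * g) → Word g) :
    bm D true w * dg g Y = dg g Y * (bm D false w).map (starRingEnd ℂ) := by
  ext i j
  rw [mul_dg_apply, dg_mul_apply]
  have h1 := congrFun (congrFun (dl_conj h Y hs j.1 (w i.1)) i.2) j.2
  rw [Matrix.mul_apply, Matrix.mul_apply] at h1
  exact h1

/-- The Fox matrix in block form, over the polynomials. -/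
noncomputable def PM (α : KG u v →* SL(2, ℂ))
    (D : Option (Bool × Fin (2 * g)) → Fr g → Matrix (Fin 2) (Fin 2) ℂ[T;T⁻¹]) :
    Matrix ((Fin (2 * g) × Fin 2) ⊕ (Fin (2 * g) × Fin 2))
      ((Fin (2 * g) × Fin 2) ⊕ (Fin (2 * g) × Fin 2)) (Polynomial ℂ) :=
  Matrix.fromBlocks (-(bm D false v).map Polynomial.C) ((bm D true u).map Polynomial.C)
    ((Polynomial.X : Polynomial ℂ) • (dg g (mat α (cl u v mer)) * bm D false u).map Polynomial.C)
    (-(bm D true v).map Polynomial.C)

/-- The index bijection. -/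
def eIdx (g : ℕ) : (Fin (2 * g) × Fin 2) ⊕ (Fin (2 * g) × Fin 2) ≃ (Bool × Fin (2 * g)) × Fin 2 :=
  (Equiv.boolProdEquivSum (Fin (2 * g) × Fin 2)).symm.trans (Equiv.prodAssoc Bool _ _).symm

theorem fox_det (h : IsFox α D) :
    (Matrix.of fun i j : (Bool × Fin (2 * g)) × Fin 2 =>
      D (some j.1) (rel u v i.1) i.2 j.2).det = Polynomial.toLaurent (PM α D).det := by
  have hr : ∀ (x : Option (Bool × Fin (2 * g))) (j : Fin (2 * g)),
      D x (rel u v (false, j)) = D x (cp true (u j)) - D x (cp false (v j)) := by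
    intro x j
    have h1 := Phi_rel (α := α) (u := u) (v := v) (false, j)
    rw [rel, Phi_mul] at h1
    rw [rel, h.mul, fox_inv h, mul_neg, ← mul_assoc, h1, one_mul, sub_eq_add_neg]
  have hr' : ∀ (x : Bool × Fin (2 * g)) (j : Fin (2 * g)),
      D (some x) (rel u v (true, j)) =
        Phi α mer * D (some x) (cp false (u j)) - D (some x) (cp true (v j)) := by
    intro x j
    have h1 := Phi_rel (α := α) (u := u) (v := v) (true, j)
    have h2 : D (some x) (mer : Fr g) = 0 := h.ne _ _ (by simp)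
    rw [rel, Phi_mul] at h1
    rw [rel, h.mul, h.mul, h.mul, fox_inv h (some x) mer, fox_inv h (some x) (cp true (v j)), h2]
    simp only [mul_zero, neg_zero, add_zero, zero_add, mul_neg]
    rw [← mul_assoc, h1, one_mul, sub_eq_add_neg]
  rw [← Matrix.det_submatrix_equiv_self (eIdx g), RingHom.map_det]
  congr 1
  refine Matrix.ext fun i j => ?_
  rcases i with ⟨j0, a⟩ | ⟨j0, a⟩ <;> rcases j with ⟨i0, a'⟩ | ⟨i0, a'⟩
  · show D (some (false, i0)) (rel u v (false, j0)) a a' = _
    rw [hr, fox_other h true false (by simp), fox_same h, zero_sub]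
    simp [PM, bm]
  · show D (some (true, i0)) (rel u v (false, j0)) a a' = _
    rw [hr, fox_other h false true (by simp), fox_same h, sub_zero]
    simp [PM, bm]
  · show D (some (false, i0)) (rel u v (true, j0)) a a' = _
    rw [hr', fox_other h true false (by simp), fox_same h, sub_zero, Phi_mer, Matrix.smul_mul,
      ← Matrix.map_mul]
    simp only [PM, Matrix.fromBlocks_apply₂₁, Matrix.smul_apply, Matrix.map_apply, smul_eq_mul,
      RingHom.mapMatrix_apply, map_mul, Polynomial.toLaurent_X, Polynomial.toLaurent_C]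
    rw [dg_mul_apply, Matrix.mul_apply]
    rfl
  · show D (some (true, i0)) (rel u v (true, j0)) a a' = _
    rw [hr', fox_other h false true (by simp), fox_same h, mul_zero, zero_sub]
    simp [PM, bm]

end Pool.Agent.Lib.MP_31e124_gt.NA
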