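import Mathlib

/-!
# MP_31e124_gt, package NA: the leading coefficient of a polynomial which is real and nonnegative on the
negative half line
-/

set_option autoImplicit false

namespace Pool.Agent.Lib.MP_31e124_gt.NA

open Polynomial Filter

private theorem lead_real (R : ℝ[X]) (h : ∀ r : ℝ, 0 < r → 0 ≤ R.eval r) : 0 ≤ R.leadingCoeff := by
  by_contra hn
  push Not at hn
  by_cases hd : 0 < R.degree
  · have h1 := R.tendsto_atBot_of_leadingCoeff_nonpos hd hn.le
    have h2 := h1.eventually (eventually_lt_atBot 0)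
    obtain ⟨x, hx, hx'⟩ := (h2.and (eventually_gt_atTop 0)).exists
    exact absurd (h x hx') (not_le.2 hx)
  · have h1 : R = C (R.coeff 0) := eq_C_of_degree_le_zero (not_lt.1 hd)
    have h2 := h 1 one_pos
    rw [h1, eval_C] at h2
    rw [h1, leadingCoeff_C] at hn
    exact absurd h2 (not_le.2 hn)

/-- A polynomial with real nonnegative values on the negative half line: the sign of the leading
coefficient. -/
theorem lead_sign (P : ℂ[X]) (hP : P ≠ 0)
    (h : ∀ t : ℝ, t < 0 → ∃ s : ℝ, 0 ≤ s ∧ P.eval (t : ℂ) = s) :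
    ∃ l : ℝ, P.leadingCoeff = l ∧ 0 < (-1) ^ P.natDegree * l := by
  have h1 : P.map (starRingEnd ℂ) = P := by
    refine Polynomial.eq_of_infinite_eval_eq _ _ ?_
    have h2 : (fun x : ℝ => (x : ℂ)) '' Set.Iio (0 : ℝ) ⊆
        {x | eval x (P.map (starRingEnd ℂ)) = eval x P} := by
      rintro _ ⟨t, ht, rfl⟩
      obtain ⟨s, -, hs⟩ := h t ht
      have h3 : (starRingEnd ℂ) (t : ℂ) = (t : ℂ) := Complex.conj_ofReal t
      have h4 := Polynomial.eval_map_apply (f := starRingEnd ℂ) (p := P) (x := (t : ℂ))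
      rw [h3, hs, Complex.conj_ofReal] at h4
      exact h4.trans hs.symm
    exact ((Set.Iio_infinite (0 : ℝ)).image (Complex.ofReal_injective.injOn)).mono h2
  obtain ⟨Q, hQ⟩ : ∃ Q : ℝ[X], Q.map Complex.ofRealHom = P := by
    have h2 : P ∈ lifts Complex.ofRealHom := by
      rw [lifts_iff_coeff_lifts]
      intro n
      have h3 : (starRingEnd ℂ) (P.coeff n) = P.coeff n := by
        rw [← coeff_map, h1]
      obtain ⟨r, hr⟩ := Complex.conj_eq_iff_real.1 h3
      exact ⟨r, hr.symm⟩
    obtain ⟨Q, hQ⟩ := (mem_lifts P).1 h2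
    exact ⟨Q, hQ⟩
  have hinj : Function.Injective Complex.ofRealHom := Complex.ofReal_injective
  have hd : P.natDegree = Q.natDegree := by
    rw [← hQ, natDegree_map_eq_of_injective hinj]
  have hl : P.leadingCoeff = (Q.leadingCoeff : ℂ) := by
    rw [← hQ, leadingCoeff_map_of_injective hinj]
    rfl
  have hQ0 : Q ≠ 0 := by
    rintro rfl
    exact hP (by rw [← hQ, Polynomial.map_zero])
  refine ⟨Q.leadingCoeff, hl, ?_⟩
  have h5 : ∀ r : ℝ, 0 < r → 0 ≤ (Q.comp (-X)).eval r := by
    intro r hr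
    obtain ⟨s, hs, hs'⟩ := h (-r) (neg_lt_zero.2 hr)
    have h6 : ((Q.eval (-r) : ℝ) : ℂ) = P.eval ((-r : ℝ) : ℂ) := by
      rw [← hQ]
      exact (Polynomial.eval_map_apply (f := Complex.ofRealHom) (p := Q) (x := -r)).symm
    rw [hs'] at h6
    rw [eval_comp, eval_neg, eval_X, Complex.ofReal_injective h6]
    exact hs
  have h7 := lead_real _ h5
  have h8 : (Q.comp (-X)).leadingCoeff = (-1) ^ Q.natDegree * Q.leadingCoeff := by
    rw [leadingCoeff_comp (by rw [natDegree_neg, natDegree_X]; exact one_ne_zero), leadingCoeff_neg,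
      leadingCoeff_X, mul_comm]
  rw [h8] at h7
  rw [hd]
  refine lt_of_le_of_ne h7 ?_
  symm
  exact mul_ne_zero (pow_ne_zero _ (by norm_num)) (leadingCoeff_ne_zero.2 hQ0)

end Pool.Agent.Lib.MP_31e124_gt.NA
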