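import Mathlib

/-!
# MP_31e124_gt, package NA: the complex determinant of a quaternionic matrix is real and nonnegative
-/

set_option autoImplicit false

namespace Pool.Agent.Lib.MP_31e124_gt.NA

open Matrix

/-- The `2 × 2` blocks of `M` are `[[a, b], [-conj b, conj a]]`. -/
private def IsQ {m n : Type} (M : Matrix (m × Fin 2) (n × Fin 2) ℂ) : Prop :=
  ∀ i j, M (i, 1) (j, 1) = (starRingEnd ℂ) (M (i, 0) (j, 0)) ∧
    M (i, 1) (j, 0) = -(starRingEnd ℂ) (M (i, 0) (j, 1))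

private theorem IsQ.mul {m n p : Type} [Fintype n] {M : Matrix (m × Fin 2) (n × Fin 2) ℂ}
    {N : Matrix (n × Fin 2) (p × Fin 2) ℂ} (hM : IsQ M) (hN : IsQ N) : IsQ (M * N) := by
  intro i j
  have h1 : ∀ k, (starRingEnd ℂ) (N (k, 1) (j, 0)) = -N (k, 0) (j, 1) := by
    intro k
    rw [(hN k j).2, map_neg, Complex.conj_conj]
  have h2 : ∀ k, (starRingEnd ℂ) (N (k, 1) (j, 1)) = N (k, 0) (j, 0) := by
    intro k
    rw [(hN k j).1, Complex.conj_conj]
  simp only [Matrix.mul_apply, Fintype.sum_prod_type, Fin.sum_univ_two, map_sum, map_add, map_mul,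
    h1, h2]
  constructor
  · refine Finset.sum_congr rfl fun k _ => ?_
    rw [(hM i k).1, (hM i k).2, (hN k j).1]
    ring
  · rw [← Finset.sum_neg_distrib]
    refine Finset.sum_congr rfl fun k _ => ?_
    rw [(hM i k).1, (hM i k).2, (hN k j).2]
    ring

private theorem IsQ.sub {m n : Type} {M N : Matrix (m × Fin 2) (n × Fin 2) ℂ} (hM : IsQ M)
    (hN : IsQ N) : IsQ (M - N) := by
  intro i j
  simp only [Matrix.sub_apply, map_sub, (hM i j).1, (hM i j).2, (hN i j).1, (hN i j).2]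
  exact ⟨trivial, by ring⟩

/-- The inverse of a nonzero quaternion. -/
private theorem inv1 (D : Matrix (PUnit.{1} × Fin 2) (PUnit.{1} × Fin 2) ℂ) (h : IsQ D)
    (h0 : D (PUnit.unit, 0) (PUnit.unit, 0) ≠ 0 ∨ D (PUnit.unit, 0) (PUnit.unit, 1) ≠ 0) :
    ∃ E : Matrix (PUnit.{1} × Fin 2) (PUnit.{1} × Fin 2) ℂ, IsQ E ∧ D * E = 1 ∧
      ∃ s : ℝ, 0 < s ∧ D.det = s := by
  obtain ⟨a, ha⟩ : ∃ a, D (PUnit.unit, 0) (PUnit.unit, 0) = a := ⟨_, rfl⟩
  obtain ⟨b, hb⟩ : ∃ b, D (PUnit.unit, 0) (PUnit.unit, 1) = b := ⟨_, rfl⟩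
  rw [ha, hb] at h0
  have hs : (0 : ℝ) < Complex.normSq a + Complex.normSq b := by
    rcases h0 with h0 | h0
    · have := Complex.normSq_pos.2 h0
      have := Complex.normSq_nonneg b
      linarith
    · have := Complex.normSq_pos.2 h0
      have := Complex.normSq_nonneg a
      linarith
  obtain ⟨s, hs'⟩ : ∃ s : ℝ, Complex.normSq a + Complex.normSq b = s := ⟨_, rfl⟩
  rw [hs'] at hs
  have hsC : a * (starRingEnd ℂ) a + b * (starRingEnd ℂ) b = (s : ℂ) := by
    rw [Complex.mul_conj, Complex.mul_conj, ← hs']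
    push_cast
    ring
  have hsne : (s : ℂ) ≠ 0 := Complex.ofReal_ne_zero.2 hs.ne'
  have hd := (h PUnit.unit PUnit.unit).1
  have hc := (h PUnit.unit PUnit.unit).2
  rw [ha] at hd
  rw [hb] at hc
  refine ⟨fun i j => (s : ℂ)⁻¹ * (if i.2 = 0 then (if j.2 = 0 then (starRingEnd ℂ) a else -b)
    else (if j.2 = 0 then (starRingEnd ℂ) b else a)), ?_, ?_, s, hs, ?_⟩
  · rintro ⟨⟩ ⟨⟩
    simp [Complex.conj_ofReal]
  · ext ⟨i0, i⟩ ⟨j0, j⟩
    obtain rfl : i0 = PUnit.unit := rfl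
    obtain rfl : j0 = PUnit.unit := rfl
    fin_cases i <;> fin_cases j <;>
      simp [Matrix.mul_apply, Fintype.sum_prod_type, Fin.sum_univ_two, ha, hb, hc, hd] <;>
      field_simp <;> first
        | linear_combination hsC
        | linear_combination -hsC
        | ring
  · rw [← Matrix.det_submatrix_equiv_self (Equiv.punitProd (Fin 2)).symm D, Matrix.det_fin_two]
    simp [ha, hb, hc, hd]
    linear_combination hsC

/-- Adding the block row `i` to the block row `k`. -/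
private theorem addRow {n : Type} [Fintype n] [DecidableEq n] (M : Matrix (n × Fin 2) (n × Fin 2) ℂ)
    (h : IsQ M) (k i : n) (hki : k ≠ i) : ∃ M' : Matrix (n × Fin 2) (n × Fin 2) ℂ, IsQ M' ∧
      M'.det = M.det ∧ ∀ a j, M' (k, a) j = M (k, a) j + M (i, a) j := by
  have h0 : ((k, 0) : n × Fin 2) ≠ (i, 0) := fun h => hki (congrArg Prod.fst h)
  have h1 : ((k, 1) : n × Fin 2) ≠ (i, 1) := fun h => hki (congrArg Prod.fst h)
  have key : ∀ (l : n) (a : Fin 2) (j : n × Fin 2), (Matrix.transvection (k, 0) (i, 0) (1 : ℂ) *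
      (Matrix.transvection (k, 1) (i, 1) (1 : ℂ) * M) : Matrix (n × Fin 2) (n × Fin 2) ℂ) (l, a) j =
        M (l, a) j + (if l = k then M (i, a) j else 0) := by
    intro l a j
    by_cases hl : l = k
    · subst hl
      rw [if_pos rfl]
      have ha : a = 0 ∨ a = 1 := by
        fin_cases a <;> simp
      rcases ha with rfl | rfl
      · rw [Matrix.transvection_mul_apply_same, Matrix.transvection_mul_apply_of_ne,
          Matrix.transvection_mul_apply_of_ne, one_mul]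
        · exact fun h => hki (congrArg Prod.fst h).symm
        · exact fun h => by simp at h
      · rw [Matrix.transvection_mul_apply_of_ne, Matrix.transvection_mul_apply_same, one_mul]
        exact fun h => by simp at h
    · rw [if_neg hl, add_zero, Matrix.transvection_mul_apply_of_ne,
        Matrix.transvection_mul_apply_of_ne]
      · exact fun h => hl (congrArg Prod.fst h)
      · exact fun h => hl (congrArg Prod.fst h)
  refine ⟨_, ?_, ?_, fun a j => (key k a j).trans (by rw [if_pos rfl])⟩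
  · intro l j
    rw [key, key, key, key, (h l j).1, (h l j).2]
    by_cases hl : l = k
    · rw [if_pos hl, if_pos hl, if_pos hl, if_pos hl, (h i j).1, (h i j).2, map_add, map_add]
      exact ⟨rfl, by ring⟩
    · rw [if_neg hl, if_neg hl, if_neg hl, if_neg hl, map_add, map_add, map_zero]
      exact ⟨rfl, by ring⟩
  · rw [Matrix.det_mul, Matrix.det_mul, Matrix.det_transvection_of_ne _ _ h0,
      Matrix.det_transvection_of_ne _ _ h1, one_mul, one_mul]

/-- Schur complement. -/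
private theorem schur {n : Type} [Fintype n] [DecidableEq n]
    (IH : ∀ M : Matrix (n × Fin 2) (n × Fin 2) ℂ, IsQ M → ∃ s : ℝ, 0 ≤ s ∧ M.det = s)
    (M : Matrix ((n ⊕ PUnit.{1}) × Fin 2) ((n ⊕ PUnit.{1}) × Fin 2) ℂ) (h : IsQ M)
    (h0 : M (Sum.inr PUnit.unit, 0) (Sum.inr PUnit.unit, 0) ≠ 0 ∨
      M (Sum.inr PUnit.unit, 0) (Sum.inr PUnit.unit, 1) ≠ 0) : ∃ s : ℝ, 0 ≤ s ∧ M.det = s := by
  obtain ⟨e, he⟩ : ∃ e : (n ⊕ PUnit.{1}) × Fin 2 ≃ (n × Fin 2) ⊕ (PUnit.{1} × Fin 2),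
    e = Equiv.sumProdDistrib n PUnit.{1} (Fin 2) := ⟨_, rfl⟩
  obtain ⟨A, hA⟩ : ∃ A : Matrix (n × Fin 2) (n × Fin 2) ℂ,
    A = Matrix.of fun i j => M (Sum.inl i.1, i.2) (Sum.inl j.1, j.2) := ⟨_, rfl⟩
  obtain ⟨B, hB⟩ : ∃ B : Matrix (n × Fin 2) (PUnit.{1} × Fin 2) ℂ,
    B = Matrix.of fun i j => M (Sum.inl i.1, i.2) (Sum.inr j.1, j.2) := ⟨_, rfl⟩
  obtain ⟨C, hC⟩ : ∃ C : Matrix (PUnit.{1} × Fin 2) (n × Fin 2) ℂ,
    C = Matrix.of fun i j => M (Sum.inr i.1, i.2) (Sum.inl j.1, j.2) := ⟨_, rfl⟩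
  obtain ⟨D, hD⟩ : ∃ D : Matrix (PUnit.{1} × Fin 2) (PUnit.{1} × Fin 2) ℂ,
    D = Matrix.of fun i j => M (Sum.inr i.1, i.2) (Sum.inr j.1, j.2) := ⟨_, rfl⟩
  have hM : M.submatrix e.symm e.symm = Matrix.fromBlocks A B C D := by
    subst he hA hB hC hD
    ext i j
    rcases i with i | i <;> rcases j with j | j <;> rfl
  have qA : IsQ A := by
    subst hA
    exact fun i j => h (Sum.inl i) (Sum.inl j)
  have qB : IsQ B := by
    subst hB
    exact fun i j => h (Sum.inl i) (Sum.inr j)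
  have qC : IsQ C := by
    subst hC
    exact fun i j => h (Sum.inr i) (Sum.inl j)
  have qD : IsQ D := by
    subst hD
    exact fun i j => h (Sum.inr i) (Sum.inr j)
  obtain ⟨E, qE, hDE, s, hs, hds⟩ := inv1 D qD (by subst hD; exact h0)
  let _ : Invertible D := invertibleOfRightInverse D E hDE
  have hE : ⅟D = E := rfl
  obtain ⟨s', hs', hds'⟩ := IH (A - B * E * C) (qA.sub ((qB.mul qE).mul qC))
  refine ⟨s * s', by positivity, ?_⟩
  rw [← Matrix.det_submatrix_equiv_self e.symm M, hM, Matrix.det_fromBlocks₂₂, hE, hds, hds']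
  push_cast
  rfl

private theorem stepQ {n : Type} [Fintype n] [DecidableEq n]
    (IH : ∀ M : Matrix (n × Fin 2) (n × Fin 2) ℂ, IsQ M → ∃ s : ℝ, 0 ≤ s ∧ M.det = s)
    (M : Matrix ((n ⊕ PUnit.{1}) × Fin 2) ((n ⊕ PUnit.{1}) × Fin 2) ℂ) (h : IsQ M) :
    ∃ s : ℝ, 0 ≤ s ∧ M.det = s := by
  by_cases h0 : M (Sum.inr PUnit.unit, 0) (Sum.inr PUnit.unit, 0) ≠ 0 ∨
      M (Sum.inr PUnit.unit, 0) (Sum.inr PUnit.unit, 1) ≠ 0
  · exact schur IH M h h0
  push Not at h0
  by_cases h1 : ∃ i, M (i, 0) (Sum.inr PUnit.unit, 0) ≠ 0 ∨ M (i, 0) (Sum.inr PUnit.unit, 1) ≠ 0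
  · obtain ⟨i, hi⟩ := h1
    have hki : (Sum.inr PUnit.unit : n ⊕ PUnit.{1}) ≠ i := by
      rintro rfl
      rcases hi with hi | hi
      · exact hi h0.1
      · exact hi h0.2
    obtain ⟨M', q', hd', hM'⟩ := addRow M h _ i hki
    rw [← hd']
    refine schur IH M' q' ?_
    rw [hM', hM', h0.1, h0.2, zero_add, zero_add]
    exact hi
  · push Not at h1
    refine ⟨0, le_rfl, ?_⟩
    rw [Complex.ofReal_zero]
    refine Matrix.det_eq_zero_of_column_eq_zero (Sum.inr PUnit.unit, 0) ?_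
    rintro ⟨i, a⟩
    fin_cases a
    · exact (h1 i).1
    · exact ((h i (Sum.inr PUnit.unit)).2).trans (by rw [(h1 i).2, map_zero, neg_zero])

private theorem detQ (k : ℕ) : ∀ M : Matrix (Fin k × Fin 2) (Fin k × Fin 2) ℂ, IsQ M →
    ∃ s : ℝ, 0 ≤ s ∧ M.det = s := by
  induction k with
  | zero =>
    intro M _
    exact ⟨1, zero_le_one, by rw [Matrix.det_isEmpty, Complex.ofReal_one]⟩
  | succ k ih =>
    intro M h
    obtain ⟨e, -⟩ : ∃ e : Fin k ⊕ PUnit.{1} ≃ Fin (k + 1), True :=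
      ⟨((finSuccEquiv k).trans (Equiv.optionEquivSumPUnit (Fin k))).symm, trivial⟩
    have h1 := stepQ ih (M.submatrix (Prod.map e id) (Prod.map e id)) (fun i j => h (e i) (e j))
    have h2 : M.submatrix (Prod.map e id) (Prod.map e id) =
      M.submatrix (Equiv.prodCongr e (Equiv.refl (Fin 2))) (Equiv.prodCongr e (Equiv.refl (Fin 2))) :=
      rfl
    rw [h2, Matrix.det_submatrix_equiv_self] at h1
    exact h1

/-- The determinant of a quaternionic matrix is real and not negative. -/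
theorem quat_det {n : Type} [Fintype n] [DecidableEq n] (X Z : Matrix n n ℂ) :
    ∃ s : ℝ, 0 ≤ s ∧ (Matrix.fromBlocks X Z (-(Z.map (starRingEnd ℂ)))
      (X.map (starRingEnd ℂ))).det = s := by
  obtain ⟨e⟩ : Nonempty (n ≃ Fin (Fintype.card n)) := ⟨Fintype.equivFin n⟩
  obtain ⟨f, hf⟩ : ∃ f : Fin (Fintype.card n) × Fin 2 ≃ n ⊕ n, ∀ i,
      f (i, 0) = Sum.inl (e.symm i) ∧ f (i, 1) = Sum.inr (e.symm i) := by
    refine ⟨(Equiv.prodComm _ _).trans ((Equiv.prodCongr finTwoEquiv e.symm).trans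
      (Equiv.boolProdEquivSum n)), fun i => ⟨rfl, rfl⟩⟩
  rw [← Matrix.det_submatrix_equiv_self f]
  refine detQ _ _ ?_
  intro i j
  simp only [Matrix.submatrix_apply, (hf i).1, (hf i).2, (hf j).1, (hf j).2,
    Matrix.fromBlocks_apply₁₁, Matrix.fromBlocks_apply₁₂, Matrix.fromBlocks_apply₂₁,
    Matrix.fromBlocks_apply₂₂, Matrix.neg_apply, Matrix.map_apply]
  exact ⟨trivial, trivial⟩

end Pool.Agent.Lib.MP_31e124_gt.NA
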