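import Pool.Agent.Lib.MP_31e124_gt.NA.Fox
import Pool.Agent.Lib.MP_31e124_gt.NA.Quat
import Pool.Agent.Lib.MP_31e124_gt.NA.Neg
import Pool.Agent.Lib.MP_31e124_gt.BP.Top

/-!
# MP_31e124_gt, package NA: the sign of the top coefficient
-/

set_option autoImplicit false

namespace Pool.Agent.Lib.MP_31e124_gt.NA

open LaurentPolynomial Matrix
open scoped MatrixGroups Kronecker

variable {g : ℕ} {u v : Fin (2 * g) → Word g} {α : KG u v →* SL(2, ℂ)}
variable {D : Option (Bool × Fin (2 * g)) → Fr g → Matrix (Fin 2) (Fin 2) ℂ[T;T⁻¹]}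

theorem dg_mul (A B : Matrix (Fin 2) (Fin 2) ℂ) : dg g A * dg g B = dg g (A * B) := by
  unfold dg
  rw [← Matrix.mul_kronecker_mul, one_mul]

theorem dg_smul (c : ℂ) (A : Matrix (Fin 2) (Fin 2) ℂ) : dg g (c • A) = c • dg g A := by
  unfold dg
  rw [Matrix.kronecker_smul]

theorem dg_conj (A : Matrix (Fin 2) (Fin 2) ℂ) :
    (dg g A).map (starRingEnd ℂ) = dg g (A.map (starRingEnd ℂ)) := by
  ext i j
  simp only [dg, Matrix.map_apply, Matrix.kroneckerMap_apply, map_mul, Matrix.one_apply]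
  split_ifs <;> simp

theorem dg_det (A : Matrix (Fin 2) (Fin 2) ℂ) (h : A.det ≠ 0) : (dg g A).det ≠ 0 := by
  unfold dg
  rw [Matrix.det_kronecker, Matrix.det_one, one_pow, one_mul]
  exact pow_ne_zero _ h

section Blocks

variable {n : Type} [Fintype n] [DecidableEq n]

omit [Fintype n] [DecidableEq n] in
private theorem conj_conj (M : Matrix n n ℂ) :
    (M.map (starRingEnd ℂ)).map (starRingEnd ℂ) = M := by
  ext
  simp

/-- The positivity for a negative real `t`. -/
theorem block_pos (V U V' U' YY MM : Matrix n n ℂ) (hY : YY.det ≠ 0) (l : ℝ) (hl : 0 < l)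
    (h1 : YY * YY.map (starRingEnd ℂ) = (l : ℂ) • MM)
    (h2 : V' * YY = YY * V.map (starRingEnd ℂ)) (h3 : U' * YY = YY * U.map (starRingEnd ℂ))
    (t : ℝ) (ht : t < 0) : ∃ s : ℝ, 0 ≤ s ∧
      (Matrix.fromBlocks (-V) U' ((t : ℂ) • (MM * U)) (-V')).det = s := by
  obtain ⟨r, hr⟩ : ∃ r : ℝ, r = Real.sqrt (-t / l) := ⟨_, rfl⟩
  have hr2 : l * (r * r) = -t := by
    rw [hr, Real.mul_self_sqrt (div_nonneg (neg_nonneg.2 ht.le) hl.le)]
    field_simp
  have hr0 : 0 < r := by
    rw [hr]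
    exact Real.sqrt_pos.2 (div_pos (neg_pos.2 ht) hl)
  have hrC : (l : ℂ) * ((r : ℂ) * r) = -t := by exact_mod_cast hr2
  obtain ⟨A, hA⟩ : ∃ A : Matrix n n ℂ, A = YY * U.map (starRingEnd ℂ) := ⟨_, rfl⟩
  have hAc : A.map (starRingEnd ℂ) = YY.map (starRingEnd ℂ) * U := by
    rw [hA, Matrix.map_mul, conj_conj]
  obtain ⟨s, hs, hs'⟩ := quat_det (-V) ((r : ℂ) • A)
  refine ⟨s, hs, ?_⟩
  rw [← hs']
  have hc1 : ((r : ℂ) • A).map (starRingEnd ℂ) = (r : ℂ) • A.map (starRingEnd ℂ) := by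
    ext i j
    simp
  have hc2 : (-V).map (starRingEnd ℂ) = -(V.map (starRingEnd ℂ)) := by
    ext i j
    simp
  rw [hc1, hc2]
  have e1 : Matrix.fromBlocks (-V) U' ((t : ℂ) • (MM * U)) (-V') * Matrix.fromBlocks 1 0 0 YY =
      Matrix.fromBlocks 1 0 0 YY * Matrix.fromBlocks (-V) A
        (-(((r : ℂ) * r) • A.map (starRingEnd ℂ))) (-(V.map (starRingEnd ℂ))) := by
    rw [Matrix.fromBlocks_multiply, Matrix.fromBlocks_multiply]
    congr 1
    · simp
    · simp [h3, hA]
    · rw [Matrix.zero_mul, zero_add, Matrix.mul_one, Matrix.mul_zero, add_zero, hAc,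
        Matrix.mul_neg, Matrix.mul_smul, ← Matrix.mul_assoc, h1, smul_mul_assoc, smul_smul,
        ← neg_smul]
      congr 1
      linear_combination hrC
    · simp [h2]
  have e2 : Matrix.fromBlocks (-V) A (-(((r : ℂ) * r) • A.map (starRingEnd ℂ)))
      (-(V.map (starRingEnd ℂ))) * Matrix.fromBlocks 1 0 0 ((r : ℂ) • (1 : Matrix n n ℂ)) =
      Matrix.fromBlocks 1 0 0 ((r : ℂ) • (1 : Matrix n n ℂ)) *
        Matrix.fromBlocks (-V) ((r : ℂ) • A) (-((r : ℂ) • A.map (starRingEnd ℂ)))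
          (-(V.map (starRingEnd ℂ))) := by
    rw [Matrix.fromBlocks_multiply, Matrix.fromBlocks_multiply]
    congr 1
    · simp
    · simp
    · rw [Matrix.mul_one, Matrix.mul_zero, add_zero, Matrix.zero_mul, zero_add, Matrix.smul_mul,
        Matrix.one_mul, smul_neg, smul_smul]
    · simp
  have d1 := congrArg Matrix.det e1
  have d2 := congrArg Matrix.det e2
  rw [Matrix.det_mul, Matrix.det_mul, Matrix.det_fromBlocks_zero₂₁, Matrix.det_one, one_mul,
    mul_comm] at d1 d2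
  have hrd : ((r : ℂ) • (1 : Matrix n n ℂ)).det ≠ 0 := by
    rw [Matrix.det_smul, Matrix.det_one, mul_one]
    exact pow_ne_zero _ (Complex.ofReal_ne_zero.2 hr0.ne')
  rw [mul_left_cancel₀ hY d1, mul_left_cancel₀ hrd d2]

end Blocks

theorem eval_PM (t : ℂ) : ((PM α D).det).eval t =
    (Matrix.fromBlocks (-bm D false v) (bm D true u)
      (t • (dg g (mat α (cl u v mer)) * bm D false u)) (-bm D true v)).det := by
  have h : ((PM α D).det).eval t = ((Polynomial.evalRingHom t).mapMatrix (PM α D)).det := by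
    rw [← RingHom.map_det]
    rfl
  rw [h]
  congr 1
  refine Matrix.ext fun i j => ?_
  rcases i with i | i <;> rcases j with j | j
  · simp [PM, Matrix.fromBlocks_apply₁₁]
  · simp [PM, Matrix.fromBlocks_apply₁₂]
  · simp only [PM, Matrix.fromBlocks_apply₂₁, Matrix.smul_apply, Matrix.map_apply, smul_eq_mul,
      RingHom.mapMatrix_apply, Polynomial.coe_evalRingHom, Polynomial.eval_mul, Polynomial.eval_X,
      Polynomial.eval_C]
  · simp [PM, Matrix.fromBlocks_apply₂₂]

theorem det_mer (h : Holonomy α) : (Phi α (mer : Fr g) - 1).det =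
    Polynomial.toLaurent ((Polynomial.X - 1) ^ 2 : Polynomial ℂ) := by
  have h1 := mat_det (α := α) (cl u v mer)
  have h2 := h.tr
  rw [Matrix.det_fin_two] at h1
  rw [Matrix.trace_fin_two] at h2
  rw [Phi_mer, Matrix.det_fin_two, map_pow, map_sub, Polynomial.toLaurent_X, map_one]
  simp only [Matrix.sub_apply, Matrix.smul_apply, Matrix.map_apply, smul_eq_mul,
    Matrix.one_apply_eq, Matrix.one_apply_ne, ne_eq, zero_ne_one, one_ne_zero, not_false_eq_true,
    sub_zero]
  have h3 := congrArg (C : ℂ → ℂ[T;T⁻¹]) h1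
  have h4 := congrArg (C : ℂ → ℂ[T;T⁻¹]) h2
  rw [map_sub, map_mul, map_mul, map_one] at h3
  rw [map_add] at h4
  have h5 : (C (2 : ℂ) : ℂ[T;T⁻¹]) = 2 := map_ofNat C 2
  rw [h5] at h4
  linear_combination (T 1 : ℂ[T;T⁻¹]) ^ 2 * h3 - (T 1 : ℂ[T;T⁻¹]) * h4

theorem mirror_mer : mirror u v (cl u v mer) = cl u v mer := by
  have h : mirror u v (cl u v mer) = FreeGroup.lift (fun x => cl u v (mirGen x)) mer := rfl
  rw [h]
  simp [mer, mirGen]

theorem mirror_mirror (x : KG u v) :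
    mirror u v (mirror u v x) = cl u v mer * x * (cl u v mer)⁻¹ := by
  have h : (mirror u v).comp (mirror u v) = (MulAut.conj (cl u v mer)).toMonoidHom := by
    refine PresentedGroup.ext fun y => ?_
    have h0 : ∀ y, mirror u v (PresentedGroup.of y) = cl u v (mirGen y) := fun y =>
      PresentedGroup.toGroup.of (mir_rel u v)
    rcases y with _ | ⟨b, i⟩
    · show mirror u v (mirror u v (cl u v mer)) = cl u v mer * cl u v mer * (cl u v mer)⁻¹
      rw [mirror_mer, mirror_mer, mul_inv_cancel_right]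
    · have hT : ∀ w : Word g, mirror u v (cl u v (cp true w)) =
          cl u v mer * cl u v (cp false w) * (cl u v mer)⁻¹ := fun w => lift_true u v w
      have hc : ∀ b, (PresentedGroup.of (some (b, i)) : KG u v) =
          cl u v (cp b (FreeGroup.of i)) := by
        intro b
        have h1 : cp b (FreeGroup.of i) = FreeGroup.of (some (b, i)) := by simp [cp]
        rw [h1]
        rfl
      show mirror u v (mirror u v (PresentedGroup.of (some (b, i)))) =
        cl u v mer * PresentedGroup.of (some (b, i)) * (cl u v mer)⁻¹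
      rw [hc b]
      cases b
      · rw [mirror_cp, hT]
      · rw [hT, map_mul, map_mul, map_inv, mirror_mer, mirror_cp]
  exact DFunLike.congr_fun h x

theorem main (hα : Holonomy α) (τ : ℂ[T;T⁻¹]) (h0 : τ ≠ 0) (hτ : IsTorsion α τ) : TopSign τ := by
  obtain ⟨D, hD, s, hs1, hdet⟩ := hτ
  obtain ⟨Y, hY, hs⟩ := hα.sym
  obtain ⟨P, hP⟩ : ∃ P, P = (PM α D).det := ⟨_, rfl⟩
  rw [det_mer hα, fox_det hD, ← hP] at hdet
  obtain ⟨l, hl, hYl⟩ := sgn (G := KG u v)
    { toFun := mat α, map_one' := mat_one, map_mul' := mat_mul } (mirror u v) (cl u v mer)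
    mirror_mirror mirror_mer (mat_det _) hα.tr hα.ne hα.irr Y hY hs
  have hpos : ∀ t : ℝ, t < 0 → ∃ s : ℝ, 0 ≤ s ∧ P.eval (t : ℂ) = s := by
    intro t ht
    rw [hP, eval_PM]
    refine block_pos _ _ _ _ (dg g Y) (dg g (mat α (cl u v mer))) (dg_det Y hY) l hl ?_
      (bm_conj hD Y hs v) (bm_conj hD Y hs u) t ht
    rw [dg_conj, dg_mul, ← dg_smul]
    congr 1
  obtain ⟨n, f, hf⟩ := exists_T_pow τ
  have hfT : τ = Polynomial.toLaurent f * T (-(n : ℤ)) := by
    rw [hf, mul_assoc, ← T_add, add_neg_cancel, T_zero, mul_one]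
  have hf0 : f ≠ 0 := by
    rintro rfl
    exact h0 (by rw [hfT, map_zero, zero_mul])
  obtain ⟨k, m, hk⟩ : ∃ k m : ℕ, s + n + k = m := by
    refine ⟨s.natAbs, (s + n + s.natAbs).toNat, ?_⟩
    omega
  have e1 : f * (Polynomial.X - 1) ^ 2 * Polynomial.X ^ k = P * Polynomial.X ^ m := by
    apply Polynomial.toLaurent_injective
    rw [map_mul, map_mul, map_mul, Polynomial.toLaurent_X_pow, Polynomial.toLaurent_X_pow, hf]
    have e2 : (T s * T n * T (k : ℤ) : ℂ[T;T⁻¹]) = T (m : ℤ) := by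
      rw [← T_add, ← T_add, hk]
    rw [← e2]
    linear_combination (T (n : ℤ) * T (k : ℤ) : ℂ[T;T⁻¹]) * hdet
  have hX : (Polynomial.X - 1 : Polynomial ℂ) = Polynomial.X - Polynomial.C 1 := by
    rw [Polynomial.C_1]
  have hM : ((Polynomial.X - 1 : Polynomial ℂ) ^ 2).Monic := by
    rw [hX]
    exact (Polynomial.monic_X_sub_C 1).pow 2
  have hMd : ((Polynomial.X - 1 : Polynomial ℂ) ^ 2).natDegree = 2 := by
    rw [hX, Polynomial.natDegree_pow, Polynomial.natDegree_X_sub_C]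
  have hP0 : P ≠ 0 := by
    rintro rfl
    rw [zero_mul] at e1
    exact (mul_ne_zero (mul_ne_zero hf0 hM.ne_zero) (pow_ne_zero _ Polynomial.X_ne_zero)) e1
  have hdeg := congrArg Polynomial.natDegree e1
  rw [Polynomial.natDegree_mul (mul_ne_zero hf0 hM.ne_zero) (pow_ne_zero _ Polynomial.X_ne_zero),
    Polynomial.natDegree_mul hf0 hM.ne_zero, hMd, Polynomial.natDegree_X_pow,
    Polynomial.natDegree_mul hP0 (pow_ne_zero _ Polynomial.X_ne_zero),
    Polynomial.natDegree_X_pow] at hdeg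
  have hlc := congrArg Polynomial.leadingCoeff e1
  rw [Polynomial.leadingCoeff_mul, Polynomial.leadingCoeff_mul, hM.leadingCoeff, mul_one,
    Polynomial.leadingCoeff_X_pow, mul_one, Polynomial.leadingCoeff_mul,
    Polynomial.leadingCoeff_X_pow, mul_one] at hlc
  obtain ⟨r, hr1, hr2⟩ := lead_sign P hP0 hpos
  have hr0 : r ≠ 0 := by
    rintro rfl
    rw [mul_zero] at hr2
    exact lt_irrefl _ hr2
  refine ⟨(f.natDegree : ℤ) - n, r, hr0, ?_, ?_, ?_⟩
  · rw [hfT, BP.coeff_mul_T]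
    have e3 : (f.natDegree : ℤ) - n - -(n : ℤ) = (f.natDegree : ℤ) := by ring
    rw [e3, BP.coeff_lau, ← hr1, ← hlc]
    rfl
  · intro e he
    rw [hfT, BP.coeff_mul_T]
    rcases lt_or_ge (e - -(n : ℤ)) 0 with h6 | h6
    · exact BP.coeff_lau_neg _ _ h6
    · obtain ⟨j, hj⟩ := Int.eq_ofNat_of_zero_le h6
      rw [hj, BP.coeff_lau]
      apply Polynomial.coeff_eq_zero_of_natDegree_lt
      omega
  · obtain ⟨q, hq⟩ := hs1
    rcases Nat.even_or_odd P.natDegree with hev | hod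
    · rw [hev.neg_one_pow, one_mul] at hr2
      refine ⟨fun _ => ?_, fun _ => hr2⟩
      obtain ⟨j, hj⟩ := hev
      exact ⟨(j : ℤ) + q - 1, by omega⟩
    · rw [hod.neg_one_pow] at hr2
      refine ⟨fun h => absurd h (by linarith), fun h => ?_⟩
      exfalso
      obtain ⟨j, hj⟩ := hod
      obtain ⟨j', hj'⟩ := h
      omega

end Pool.Agent.Lib.MP_31e124_gt.NA
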