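import Pool.Agent.Lib.MP_31e124_gt.NA.Defs

/-!
# MP_31e124_gt, package NA: `Y * conj Y` is a positive multiple of the image of the meridian
-/

set_option autoImplicit false

namespace Pool.Agent.Lib.MP_31e124_gt.NA

open Matrix
open scoped MatrixGroups

private abbrev M2 : Type := Matrix (Fin 2) (Fin 2) ℂ

private def cj (w : Fin 2 → ℂ) : Fin 2 → ℂ := fun i => (starRingEnd ℂ) (w i)

private theorem cj_mulVec (M : M2) (w : Fin 2 → ℂ) :
    (M.map (starRingEnd ℂ)).mulVec (cj w) = cj (M.mulVec w) := by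
  funext i
  simp [cj, Matrix.mulVec, dotProduct, map_add, map_mul]

private theorem cj_cj (w : Fin 2 → ℂ) : cj (cj w) = w := by
  funext i
  exact Complex.conj_conj _

private theorem cj_smul (c : ℂ) (w : Fin 2 → ℂ) : cj (c • w) = (starRingEnd ℂ) c • cj w := by
  funext i
  simp [cj]

private theorem cj_zero : cj 0 = 0 := by
  funext i
  simp [cj]

/-- Two vectors in the kernel of a nonzero matrix. -/
private theorem ker_span (N : M2) (hN : N ≠ 0) (w z : Fin 2 → ℂ) (hw : w ≠ 0) (h1 : N.mulVec w = 0)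
    (h2 : N.mulVec z = 0) : ∃ c : ℂ, z = c • w := by
  have e : ∀ i, N i 0 * w 0 + N i 1 * w 1 = 0 := by
    intro i
    have := congrFun h1 i
    simpa [Matrix.mulVec, dotProduct, Fin.sum_univ_two] using this
  have f : ∀ i, N i 0 * z 0 + N i 1 * z 1 = 0 := by
    intro i
    have := congrFun h2 i
    simpa [Matrix.mulVec, dotProduct, Fin.sum_univ_two] using this
  have hd : w 0 * z 1 - w 1 * z 0 = 0 := by
    by_contra hd
    apply hN
    ext i j
    have h3 : N i 0 * (w 0 * z 1 - w 1 * z 0) = 0 := by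
      linear_combination z 1 * e i - w 1 * f i
    have h4 : N i 1 * (w 0 * z 1 - w 1 * z 0) = 0 := by
      linear_combination w 0 * f i - z 0 * e i
    have h5 := (mul_eq_zero.1 h3).resolve_right hd
    have h6 := (mul_eq_zero.1 h4).resolve_right hd
    fin_cases j
    · exact h5
    · exact h6
  have hw' : w 0 ≠ 0 ∨ w 1 ≠ 0 := by
    by_contra h
    push Not at h
    apply hw
    funext i
    fin_cases i
    · exact h.1
    · exact h.2
  rcases hw' with h | h
  · refine ⟨z 0 / w 0, ?_⟩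
    funext i
    fin_cases i
    · simp [h]
    · simp only [Fin.mk_one, Fin.isValue, Pi.smul_apply, smul_eq_mul]
      field_simp
      linear_combination hd
  · refine ⟨z 1 / w 1, ?_⟩
    funext i
    fin_cases i
    · simp only [Fin.zero_eta, Fin.isValue, Pi.smul_apply, smul_eq_mul]
      field_simp
      linear_combination -hd
    · simp [h]

/-- A matrix which commutes with an irreducible set of matrices is a scalar. -/
private theorem schur2 (K : Set M2) (S : M2) (hS : ∀ x ∈ K, x * S = S * x)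
    (irr : ∀ w : Fin 2 → ℂ, w ≠ 0 → ∃ x ∈ K, ∀ c : ℂ, x.mulVec w ≠ c • w) :
    ∃ c : ℂ, S = c • (1 : M2) := by
  obtain ⟨c, hc⟩ : ∃ c : ℂ, (S - c • (1 : M2)).det = 0 := by
    obtain ⟨c, hc⟩ := IsAlgClosed.exists_root (S.charpoly) (by
      rw [Matrix.charpoly_degree_eq_dim]
      simp)
    refine ⟨c, ?_⟩
    have h1 : S.charpoly.eval c = (Matrix.scalar (Fin 2) c - S).det := by
      rw [Matrix.eval_charpoly]
    rw [Polynomial.IsRoot] at hc
    rw [hc] at h1
    have h2 : S - c • (1 : M2) = -(Matrix.scalar (Fin 2) c - S) := by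
      rw [neg_sub]
      congr 1
      ext i j
      simp [Matrix.smul_apply, Matrix.one_apply, Matrix.diagonal_apply]
    rw [h2, Matrix.det_neg, ← h1]
    simp
  refine ⟨c, ?_⟩
  by_contra hne
  have hne' : S - c • (1 : M2) ≠ 0 := fun h => hne (sub_eq_zero.1 h)
  obtain ⟨w, hw, hw0⟩ := Matrix.exists_mulVec_eq_zero_iff.2 hc
  obtain ⟨x, hx, hx'⟩ := irr w hw
  have h3 : (S - c • (1 : M2)).mulVec (x.mulVec w) = 0 := by
    have h4 : (S - c • (1 : M2)) * x = x * (S - c • (1 : M2)) := by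
      rw [sub_mul, mul_sub, hS x hx, smul_mul_assoc, mul_smul_comm, one_mul, mul_one]
    rw [Matrix.mulVec_mulVec, h4, ← Matrix.mulVec_mulVec, hw0, Matrix.mulVec_zero]
  obtain ⟨d, hd⟩ := ker_span _ hne' w _ hw hw0 h3
  exact hx' d hd

theorem map_map_conj (M : M2) : (M.map (starRingEnd ℂ)).map (starRingEnd ℂ) = M := by
  ext i j
  simp

theorem map_mul_conj (M N : M2) :
    (M * N).map (starRingEnd ℂ) = M.map (starRingEnd ℂ) * N.map (starRingEnd ℂ) :=
  Matrix.map_mul

/-- The sign of `Y * conj Y`. -/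
theorem sgn {G : Type} [Group G] (a : G →* M2) (θ : G → G) (m : G)
    (hθ : ∀ x, θ (θ x) = m * x * m⁻¹) (hm : θ m = m)
    (hdet : (a m).det = 1) (htr : (a m).trace = 2) (hne : a m ≠ 1)
    (irr : ∀ w : Fin 2 → ℂ, w ≠ 0 → ∃ x, ∀ c : ℂ, (a x).mulVec w ≠ c • w)
    (Y : M2) (hY : Y.det ≠ 0) (hs : ∀ x, a (θ x) * Y = Y * (a x).map (starRingEnd ℂ)) :
    ∃ l : ℝ, 0 < l ∧ Y * Y.map (starRingEnd ℂ) = (l : ℂ) • a m := by
  obtain ⟨B, hB⟩ : ∃ B : M2, B = Y * Y.map (starRingEnd ℂ) := ⟨_, rfl⟩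
  rw [← hB]
  have h1 : ∀ x, a (m * x * m⁻¹) * B = B * a x := by
    intro x
    rw [← hθ x, hB, ← mul_assoc, hs (θ x), mul_assoc, ← map_mul_conj, hs x, map_mul_conj,
      map_map_conj, mul_assoc]
  have h2 : a m * a m⁻¹ = 1 := by rw [← map_mul, mul_inv_cancel, map_one]
  have h3 : a m⁻¹ * a m = 1 := by rw [← map_mul, inv_mul_cancel, map_one]
  obtain ⟨c, hc⟩ := schur2 (Set.range a) (a m⁻¹ * B) (by
    rintro _ ⟨x, rfl⟩
    have h4 := h1 x
    rw [map_mul, map_mul] at h4
    calc a x * (a m⁻¹ * B) = (a m⁻¹ * a m) * a x * a m⁻¹ * B := by rw [h3, one_mul, mul_assoc]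
      _ = a m⁻¹ * (a m * a x * a m⁻¹ * B) := by simp only [mul_assoc]
      _ = a m⁻¹ * B * a x := by rw [h4, mul_assoc]) (by
    intro w hw
    obtain ⟨x, hx⟩ := irr w hw
    exact ⟨a x, ⟨x, rfl⟩, hx⟩)
  have hBc : B = c • a m := by
    calc B = (a m * a m⁻¹) * B := by rw [h2, one_mul]
      _ = a m * (a m⁻¹ * B) := mul_assoc _ _ _
      _ = c • a m := by rw [hc, mul_smul_comm, mul_one]
  obtain ⟨N, hN⟩ : ∃ N : M2, N = a m - 1 := ⟨_, rfl⟩
  have hN0 : N ≠ 0 := by
    rw [hN]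
    exact sub_ne_zero.2 hne
  have hNd : N.det = 0 := by
    rw [hN, Matrix.det_fin_two]
    rw [Matrix.det_fin_two] at hdet
    rw [Matrix.trace_fin_two] at htr
    simp
    linear_combination hdet - htr
  obtain ⟨w, hw, hw0⟩ := Matrix.exists_mulVec_eq_zero_iff.2 hNd
  have hNY : N * Y = Y * N.map (starRingEnd ℂ) := by
    have h5 := hs m
    rw [hm] at h5
    rw [hN, sub_mul, h5, one_mul]
    have h6 : (a m - 1).map (starRingEnd ℂ) = (a m).map (starRingEnd ℂ) - 1 := by
      ext i j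
      simp only [Matrix.map_apply, Matrix.sub_apply, map_sub, Matrix.one_apply]
      split_ifs <;> simp
    rw [h6, mul_sub, mul_one]
  have h7 : N.mulVec (Y.mulVec (cj w)) = 0 := by
    rw [Matrix.mulVec_mulVec, hNY, ← Matrix.mulVec_mulVec, cj_mulVec, hw0, cj_zero,
      Matrix.mulVec_zero]
  obtain ⟨μ, hμ⟩ := ker_span N hN0 w _ hw hw0 h7
  have h8 : B.mulVec w = ((starRingEnd ℂ) μ * μ) • w := by
    rw [hB, ← Matrix.mulVec_mulVec]
    have h9 : (Y.map (starRingEnd ℂ)).mulVec w = (starRingEnd ℂ) μ • cj w := by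
      rw [← cj_smul, ← hμ, ← cj_mulVec, cj_cj]
    rw [h9, Matrix.mulVec_smul, hμ, smul_smul]
  have h10 : B.mulVec w = c • w := by
    have h11 : (a m).mulVec w = w := by
      have h12 : a m = N + 1 := by rw [hN, sub_add_cancel]
      rw [h12, Matrix.add_mulVec, hw0, Matrix.one_mulVec, zero_add]
    rw [hBc, Matrix.smul_mulVec, h11]
  have h13 : c = (starRingEnd ℂ) μ * μ := by
    rw [h8] at h10
    have h14 : ((starRingEnd ℂ) μ * μ - c) • w = 0 := by rw [sub_smul, h10, sub_self]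
    rcases smul_eq_zero.1 h14 with h | h
    · exact (sub_eq_zero.1 h).symm
    · exact absurd h hw
  have h15 : c = ((Complex.normSq μ : ℝ) : ℂ) := by
    rw [h13, mul_comm, Complex.mul_conj]
  have h16 : c ≠ 0 := by
    intro h0
    have h17 : B.det = 0 := by rw [hBc, h0, zero_smul, Matrix.det_zero]
    rw [hB, Matrix.det_mul] at h17
    have h18 : (Y.map (starRingEnd ℂ)).det = (starRingEnd ℂ) Y.det := by
      rw [← RingHom.mapMatrix_apply, ← RingHom.map_det]
    rw [h18] at h17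
    rcases mul_eq_zero.1 h17 with h | h
    · exact hY h
    · exact hY ((map_eq_zero _).1 h)
  refine ⟨Complex.normSq μ, ?_, by rw [hBc, h15]⟩
  refine Complex.normSq_pos.2 ?_
  rintro rfl
  exact h16 (by rw [h15, map_zero, Complex.ofReal_zero])

end Pool.Agent.Lib.MP_31e124_gt.NA
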